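import Pool.Agent.N972.TP.Cls
import Pool.Agent.N877.JX.Hx
import Pool.Agent.N973.P21G.All

/-!
# TP: the twists of the curve of conductor 21 in the classes
-/

set_option autoImplicit false
set_option linter.all false

open scoped Classical

namespace Pool.Agent.N972.TP

open Finset Filter
open Pool.Agent.N919.BS (NS NF HG)
open Pool.Agent.N916.GB (eta)
open Pool.Agent.N809.PQ (Sg21 C3 C7 w21)
open Pool.Agent.N809.Red21 (f21 fD fD_iff)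
open Pool.Agent.N916.PQ.L21 (fO fO_iff)
open Pool.Agent.N963.JT (Sp)
open Pool.Agent.N877.JX (PX)

/-- `2`-Selmer minimal, level 21 -/
def R21 (d : ℤ) : Prop := Pool.Agent.N875.X15.Fin2 (Pool.Agent.N637.P21.WS d)

theorem cl_same' {m : ℕ} {d₀ d : ℤ} (h0 : d₀ ≠ 0) (h : Cl m d₀ d) :
    ((0 < d ∧ 0 < d₀) ∨ (d < 0 ∧ d₀ < 0)) ∧ d % (m : ℤ) = d₀ % (m : ℤ) := by
  obtain ⟨h1, h2, h3⟩ := h
  exact ⟨by omega, h3⟩

theorem px_cl {m : ℕ} (h21 : 21 ∣ m) {d₀ d : ℤ} (h0 : d₀ ≠ 0) (hR : PX d₀)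
    (h : Cl m d₀ d) : PX d := by
  obtain ⟨h1, h2⟩ := cl_same' h0 h
  have h3 : ((21 : ℕ) : ℤ) ∣ m := Int.natCast_dvd_natCast.2 h21
  have h4 : d % (21 : ℤ) = d₀ % (21 : ℤ) := by
    have := congrArg (· % (21 : ℤ)) h2
    simpa only [Int.emod_emod_of_dvd _ (show (21 : ℤ) ∣ m from h3)] using this
  unfold Pool.Agent.N877.JX.PX C3 C7 at hR ⊢
  omega

theorem fO_cl {m : ℕ} (h21 : 21 ∣ m) {d₀ d : ℤ} (h0 : d₀ ≠ 0) (hR : fO d₀ = true)
    (h : Cl m d₀ d) : fO d = true :=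
  (Pool.Agent.N975.JT.sp_fO h21 d d₀ (cl_same' h0 h).1 (cl_same' h0 h).2).2 hR

theorem hg21o {m : ℕ} (hm : 0 < m) (h21 : 21 ∣ m) {d₀ : ℤ} (h0 : d₀ ≠ 0) (hR : fO d₀ = true) :
    HG (Cl m d₀) Sg21 eta :=
  hg_of (M := 840 * m) (by positivity) (Dvd.dvd.mul_right (by norm_num) m)
    (sp_cl (Dvd.intro_left _ rfl) d₀) Pool.Agent.N916.PQ.eta01.1 Pool.Agent.N916.PQ.eta01.2
    fun s' k c t r s H K hK =>
      ((Pool.Agent.N877.JX.i21 (P := Cl m d₀) fun d h => fO_cl h21 h0 hR h).lah (by norm_num))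
        s' k c t r s H (840 * m) (Dvd.intro _ rfl) (by positivity) K hK

theorem hg21x {m : ℕ} (hm : 0 < m) (h21 : 21 ∣ m) {d₀ : ℤ} (h0 : d₀ ≠ 0) (hR : PX d₀) :
    HG (Cl m d₀) Sg21 (4 / 3 * eta) :=
  hg_of (M := 168 * m) (by positivity) (Dvd.dvd.mul_right (by norm_num) m)
    (sp_cl (Dvd.intro_left _ rfl) d₀)
    (by linarith [Pool.Agent.N916.GB.eta_bounds.1]) (by linarith [Pool.Agent.N916.GB.eta_bounds.2])
    fun s' k c t r s H K hK =>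
      ((Pool.Agent.N877.JX.iE21).lah (by norm_num))
        s' k c t r s H (168 * m) (Dvd.intro _ rfl) (by positivity) K fun a ha =>
          ⟨(hK a ha).1, px_cl h21 h0 hR (hK a ha).2⟩

theorem r21_iff {d : ℤ} (hs : Squarefree d) (h1 : d ≠ 1) : R21 d ↔ Sg21 d :=
  Pool.Agent.N809.D21.fin2_iff hs h1

/-- the constant of the class -/
noncomputable def cc21 (d₀ : ℤ) : ℝ := if PX d₀ then 4 / 3 * eta else eta

theorem hgR21 {m : ℕ} (hm : 0 < m) (h21 : 21 ∣ m) {d₀ : ℤ} (h0 : d₀ ≠ 0) (hR : f21 d₀ = true) :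
    HG (Cl m d₀) R21 (cc21 d₀) := by
  unfold cc21
  split_ifs with h
  · exact hg_congr1 (hg21x hm h21 h0 h) fun d hs h1 _ _ => (r21_iff hs h1).symm
  · refine hg_congr1 (hg21o hm h21 h0 ?_) fun d hs h1 _ _ => (r21_iff hs h1).symm
    rw [fO_iff]
    refine ⟨hR, ?_⟩
    rw [Bool.eq_false_iff]
    intro h'
    exact h ((fD_iff _).1 h')

theorem bsd21 {d : ℤ} (hs : Squarefree d) (h : R21 d) :
    4 * (-5211 * d ^ 2) ^ 3 + 27 * (-31050 * d ^ 3) ^ 2 ≠ 0 ∧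
      Pool.Agent.Y687.RankBSD (-5211 * d ^ 2) (-31050 * d ^ 3) := by
  refine ⟨?_, Pool.Agent.N973.P21G.rank21 hs h⟩
  have e : 4 * (-5211 * d ^ 2) ^ 3 + 27 * (-31050 * d ^ 3) ^ 2 = -539978068224 * d ^ 6 := by ring
  rw [e]
  exact mul_ne_zero (by norm_num) (pow_ne_zero 6 hs.ne_zero)

theorem root21 {d : ℤ} (hs : Squarefree d) (h : R21 d) : f21 d = true := by
  by_cases h2 : d = 1
  · subst h2
    decide
  · rw [Pool.Agent.N809.Red21.f21_iff]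
    exact Pool.Agent.N809.D21.parity hs h2 h

end Pool.Agent.N972.TP
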