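import Pool.Agent.N972.JT.Wt
import Pool.Agent.N963.JT.Den
import Pool.Agent.N963.JT.Cls

/-!
# TP: twists with prescribed local behaviour, classes of squarefree integers
-/

set_option autoImplicit false
set_option linter.all false

open scoped Classical

namespace Pool.Agent.N972.TP

open Finset Filter
open Pool.Agent.N855.GF (SQ wt RR dl dl_pos lim_class)
open Pool.Agent.N919.BS (NN NS NF HG Fund core)
open Pool.Agent.N916.PQ (PM pm_all hg_one)
open Pool.Agent.N916.AM (LAH)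
open Pool.Agent.N963.JT (Sp KC KC_prop mem_KC cls_NS cls_NF)

/-- the class of `d₀` modulo `m`, same sign -/
def Cl (m : ℕ) (d₀ : ℤ) (d : ℤ) : Prop :=
  (0 < d ↔ 0 < d₀) ∧ (d < 0 ↔ d₀ < 0) ∧ d % (m : ℤ) = d₀ % (m : ℤ)

theorem sp_cl {m M : ℕ} (h : m ∣ M) (d₀ : ℤ) : Sp M (Cl m d₀) := by
  intro a b hab hM
  have h1 : ((m : ℕ) : ℤ) ∣ M := Int.natCast_dvd_natCast.2 h
  have h2 : a % (m : ℤ) = b % (m : ℤ) := by
    rw [← Int.emod_emod_of_dvd a h1, hM, Int.emod_emod_of_dvd b h1]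
  unfold Cl
  rw [h2]
  have h3 : 0 < a ↔ 0 < b := by omega
  have h4 : a < 0 ↔ b < 0 := by omega
  rw [h3, h4]

/-- the density machine in a class -/
theorem hg_of {M : ℕ} (hM : 0 < M) (h8 : 8 ∣ M) {P G : ℤ → Prop} {η : ℝ} (hP : Sp M P)
    (e0 : 0 ≤ η) (e1 : η ≤ 1)
    (hL : ∀ (s' : ℤ) (k c : ℕ) (t : Bool) (r s : ZMod 2), PM s' k c t r s → ∀ K : Finset ℕ,
      (∀ a ∈ K, a % 4 = c ∧ P (s' * ((k * a : ℕ) : ℤ))) →
      LAH M K (fun S => G (s' * ((k * ∏ v ∈ S, v : ℕ) : ℤ))) η) : HG P G η := by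
  intro s' k c hs hk hc
  obtain ⟨t, r, s, H⟩ := pm_all hs hk hc
  have h4 : 4 ∣ M := (by norm_num : 4 ∣ 8).trans h8
  have hL' := hL s' k c t r s H (KC M P s' k c) fun a ha =>
      ⟨(KC_prop ha).1, (KC_prop ha).2⟩
  have h := hg_one (s' := s') (k := k) (c := c) (M := M)
    (f := fun d => decide (P d)) (Q := G) h8 hM hc e0 e1
    (fun n hn => by rw [mem_KC hM h4 hP hs hk hc hn, decide_eq_true_iff]) hL'
  simpa only [decide_eq_true_iff] using h

theorem card_near2 {s : Finset ℕ} {p q : ℕ → Prop} {_ : DecidablePred p} {_ : DecidablePred q}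
    (h : ∀ x ∈ s, x ≠ 1 → (p x → q x)) : (s.filter p).card ≤ (s.filter q).card + 1 := by
  have h1 : s.filter p ⊆ insert 1 (s.filter q) := by
    intro x hx
    rw [mem_insert, mem_filter]
    obtain ⟨h2, h3⟩ := mem_filter.1 hx
    by_cases h4 : x = 1
    · exact Or.inl h4
    · exact Or.inr ⟨h2, h x h2 h4 h3⟩
  exact (card_le_card h1).trans (card_insert_le _ _)

/-- a change of the criterion for `d = 1, -1` -/
theorem hg_congr1 {P Q Q' : ℤ → Prop} {η : ℝ} (h : HG P Q η)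
    (hQ : ∀ d, Squarefree d → d ≠ 1 → d ≠ -1 → P d → (Q d ↔ Q' d)) :
    HG P Q' η := by
  intro s' k c hs hk hc ε hε
  obtain ⟨Y₀, hY⟩ := h s' k c hs hk hc (ε / 2) (by positivity)
  obtain ⟨N, hN⟩ := exists_nat_gt (2 / ε)
  refine ⟨max Y₀ N, fun Y hY' => ?_⟩
  have h1 := hY Y ((le_max_left _ _).trans hY')
  have key : ∀ M, 0 < M → M ≠ 1 → Squarefree M → M % 4 = c → P (s' * ((k * M : ℕ) : ℤ)) →
      (Q (s' * ((k * M : ℕ) : ℤ)) ↔ Q' (s' * ((k * M : ℕ) : ℤ))) := by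
    intro M h0 h1 h2 h3 h4
    refine hQ _ ?_ ?_ ?_ h4
    · rcases hs with rfl | rfl
      · rw [one_mul, Int.squarefree_natCast]
        rcases hk with rfl | rfl
        · rwa [one_mul]
        · exact (Pool.Agent.N919.BS.sq_two (by rcases hc with rfl | rfl <;> omega)).2 h2
      · rw [neg_one_mul, Pool.Agent.N919.BS.sq_neg, Int.squarefree_natCast]
        rcases hk with rfl | rfl
        · rwa [one_mul]
        · exact (Pool.Agent.N919.BS.sq_two (by rcases hc with rfl | rfl <;> omega)).2 h2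
    · rcases hs with rfl | rfl <;> rcases hk with rfl | rfl <;> push_cast <;> omega
    · rcases hs with rfl | rfl <;> rcases hk with rfl | rfl <;> push_cast <;> omega
  have e1 : NN (fun d => P d ∧ Q d) s' k c Y ≤ NN (fun d => P d ∧ Q' d) s' k c Y + 1 := by
    unfold Pool.Agent.N919.BS.NN
    apply card_near2
    rintro M hM hM1 ⟨h2, h3, h4, h5⟩
    rw [mem_Icc] at hM
    exact ⟨h2, h3, h4, (key M hM.1 hM1 h2 h3 h4).1 h5⟩
  have e2 : NN (fun d => P d ∧ Q' d) s' k c Y ≤ NN (fun d => P d ∧ Q d) s' k c Y + 1 := by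
    unfold Pool.Agent.N919.BS.NN
    apply card_near2
    rintro M hM hM1 ⟨h2, h3, h4, h5⟩
    rw [mem_Icc] at hM
    exact ⟨h2, h3, h4, (key M hM.1 hM1 h2 h3 h4).2 h5⟩
  have f1 : (NN (fun d => P d ∧ Q d) s' k c Y : ℝ) ≤ NN (fun d => P d ∧ Q' d) s' k c Y + 1 := by
    exact_mod_cast e1
  have f2 : (NN (fun d => P d ∧ Q' d) s' k c Y : ℝ) ≤ NN (fun d => P d ∧ Q d) s' k c Y + 1 := by
    exact_mod_cast e2
  have g1 : (N : ℝ) ≤ Y := by exact_mod_cast (le_max_right _ _).trans hY'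
  have g2 : 1 ≤ ε / 2 * Y := by
    have : 2 / ε ≤ Y := hN.le.trans g1
    rw [div_le_iff₀ hε] at this
    linarith
  rw [abs_le] at h1 ⊢
  constructor <;> linarith [h1.1, h1.2]

/-! ### lower bounds for the classes -/

theorem wt_pos {m a : ℕ} (hm : 0 < m) (ha : Squarefree a) : 0 < wt m (a % m) := by
  have e : (a % m).gcd m = a.gcd m := by
    rw [← Nat.gcd_rec, Nat.gcd_comm]
  have hsq : Squarefree ((a % m).gcd m) := by
    rw [e]
    exact ha.squarefree_of_dvd (Nat.gcd_dvd_left a m)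
  unfold Pool.Agent.N855.GF.wt
  rw [if_pos hsq]
  have hg : 0 < (a % m).gcd m := Nat.gcd_pos_of_pos_right _ hm
  refine div_pos ?_ (by exact_mod_cast hg)
  have hne : (RR m (a % m)).Nonempty := by
    have hq : 0 < m / (a % m).gcd m :=
      Nat.div_pos (Nat.le_of_dvd hm (Nat.gcd_dvd_right _ _)) hg
    haveI : NeZero (m / (a % m).gcd m) := ⟨hq.ne'⟩
    have hc : Nat.Coprime (a % m / (a % m).gcd m) (m / (a % m).gcd m) :=
      Nat.coprime_div_gcd_div_gcd hg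
    obtain ⟨p, h1, h2, h3⟩ := Nat.forall_exists_prime_gt_and_eq_mod
      ((ZMod.isUnit_iff_coprime _ _).2 hc) m
    have h3' := (ZMod.natCast_eq_natCast_iff p _ _).1 h3
    refine ⟨p % m, ?_⟩
    unfold Pool.Agent.N855.GF.RR
    rw [mem_filter, mem_range]
    refine ⟨Nat.mod_lt _ hm, ?_, ?_⟩
    · have h4 : p.Coprime m := by
        rw [Nat.Prime.coprime_iff_not_dvd h2]
        intro h
        have := Nat.le_of_dvd hm h
        omega
      rw [Nat.Coprime, ← Nat.gcd_rec, Nat.gcd_comm]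
      exact h4
    · have hd : m / (a % m).gcd m ∣ m := Nat.div_dvd_of_dvd (Nat.gcd_dvd_right _ _)
      rw [Nat.mod_mod_of_dvd _ hd]
      exact h3'
  exact_mod_cast hne.card_pos

theorem low_SQ {m a : ℕ} (hm : 0 < m) (ha : Squarefree a) :
    ∃ c : ℝ, 0 < c ∧ ∀ᶠ X : ℕ in atTop, c * X ≤ ((SQ m (a % m) X).card : ℝ) := by
  have hL : 0 < wt m (a % m) * dl m := mul_pos (wt_pos hm ha) (dl_pos hm)
  refine ⟨wt m (a % m) * dl m / 2, by positivity, ?_⟩
  have h := (lim_class hm (Nat.mod_lt a hm)).eventually (lt_mem_nhds (half_lt_self hL))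
  filter_upwards [h, eventually_gt_atTop 0] with X hX hX0
  have hX0' : (0 : ℝ) < X := by exact_mod_cast hX0
  rw [lt_div_iff₀ hX0'] at hX
  exact hX.le

/-- the discriminant of `ℚ(√d)` -/
def dsc (d : ℤ) : ℤ := if d % 4 = 1 then d else 4 * d

theorem dsc_fund {d : ℤ} (hd : Squarefree d) : Fund (dsc d) := by
  unfold dsc Pool.Agent.N919.BS.Fund
  split_ifs with h
  · exact Or.inl ⟨hd, h⟩
  · refine Or.inr ⟨d, rfl, hd, ?_⟩
    have h0 : d % 4 ≠ 0 := by
      intro h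
      have h1 : (2 * 2 : ℤ) ∣ d := by
        have : (4 : ℤ) ∣ d := Int.dvd_of_emod_eq_zero h
        simpa using this
      have := hd 2 h1
      rw [Int.isUnit_iff] at this
      omega
    omega

theorem dsc_core {d : ℤ} : core (dsc d) = d := by
  unfold dsc Pool.Agent.N919.BS.core
  split_ifs with h h1 h1 <;> omega

theorem cl_of {m n : ℕ} {d₀ : ℤ} (h0 : d₀ ≠ 0) (hn : 0 < n) (h : n % m = d₀.natAbs % m) :
    Cl m d₀ (d₀.sign * n) := by
  have h1 : (n : ℤ) ≡ (d₀.natAbs : ℤ) [ZMOD m] := (Int.natCast_modEq_iff).2 h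
  have h2 := h1.mul_left d₀.sign
  rw [Int.sign_mul_natAbs] at h2
  refine ⟨?_, ?_, h2⟩
  · rcases lt_or_gt_of_ne h0 with h3 | h3
    · rw [Int.sign_eq_neg_one_of_neg h3]
      omega
    · rw [Int.sign_eq_one_of_pos h3]
      omega
  · rcases lt_or_gt_of_ne h0 with h3 | h3
    · rw [Int.sign_eq_neg_one_of_neg h3]
      omega
    · rw [Int.sign_eq_one_of_pos h3]
      omega

theorem sq_of {n : ℕ} {d₀ : ℤ} (h0 : d₀ ≠ 0) (hn : Squarefree n) : Squarefree (d₀.sign * n) := by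
  rcases lt_or_gt_of_ne h0 with h3 | h3
  · rw [Int.sign_eq_neg_one_of_neg h3, neg_one_mul, Pool.Agent.N919.BS.sq_neg,
      Int.squarefree_natCast]
    exact hn
  · rw [Int.sign_eq_one_of_pos h3, one_mul, Int.squarefree_natCast]
    exact hn

theorem low_NS {m : ℕ} {d₀ : ℤ} (hs : Squarefree d₀) (X : ℕ) :
    (SQ m (d₀.natAbs % m) X).card ≤ NS (Cl m d₀) X := by
  unfold Pool.Agent.N919.BS.NS Pool.Agent.N855.GF.SQ
  refine card_le_card_of_injOn (fun n => d₀.sign * (n : ℤ)) ?_ ?_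
  · intro n hn
    simp only [coe_filter, mem_Icc, Set.mem_setOf_eq] at hn ⊢
    obtain ⟨⟨h1, h2⟩, h3, h4⟩ := hn
    refine ⟨?_, sq_of hs.ne_zero h3, cl_of hs.ne_zero (by omega) h4⟩
    rcases lt_or_gt_of_ne hs.ne_zero with h5 | h5
    · rw [Int.sign_eq_neg_one_of_neg h5]
      omega
    · rw [Int.sign_eq_one_of_pos h5]
      omega
  · intro n _ n' _ h
    have hz : d₀.sign ≠ 0 := fun h => hs.ne_zero (Int.sign_eq_zero_iff_zero.1 h)
    exact_mod_cast mul_left_cancel₀ hz h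

theorem low_NF {m : ℕ} {d₀ : ℤ} (hs : Squarefree d₀) (X : ℕ) :
    (SQ m (d₀.natAbs % m) (X / 4)).card ≤ NF (Cl m d₀) X := by
  unfold Pool.Agent.N919.BS.NF Pool.Agent.N855.GF.SQ
  refine card_le_card_of_injOn (fun n => dsc (d₀.sign * (n : ℤ))) ?_ ?_
  · intro n hn
    simp only [coe_filter, mem_Icc, Set.mem_setOf_eq] at hn ⊢
    obtain ⟨⟨h1, h2⟩, h3, h4⟩ := hn
    refine ⟨?_, dsc_fund (sq_of hs.ne_zero h3), ?_⟩
    · unfold dsc
      rcases lt_or_gt_of_ne hs.ne_zero with h5 | h5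
      · rw [Int.sign_eq_neg_one_of_neg h5]
        split_ifs <;> omega
      · rw [Int.sign_eq_one_of_pos h5]
        split_ifs <;> omega
    · rw [dsc_core]
      exact cl_of hs.ne_zero (by omega) h4
  · intro n _ n' _ h
    have hz : d₀.sign ≠ 0 := fun h => hs.ne_zero (Int.sign_eq_zero_iff_zero.1 h)
    have h' := congrArg core h
    simp only [dsc_core] at h'
    exact_mod_cast mul_left_cancel₀ hz h'

theorem low {m : ℕ} (hm : 0 < m) {d₀ : ℤ} (hs : Squarefree d₀) :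
    ∃ c : ℝ, 0 < c ∧ (∀ᶠ X : ℕ in atTop, c * X ≤ (NS (Cl m d₀) X : ℝ)) ∧
      ∀ᶠ X : ℕ in atTop, c * X ≤ (NF (Cl m d₀) X : ℝ) := by
  have ha : Squarefree d₀.natAbs := Int.squarefree_natAbs.2 hs
  obtain ⟨c, hc, h⟩ := low_SQ hm ha
  refine ⟨c / 8, by positivity, ?_, ?_⟩
  · filter_upwards [h] with X hX
    have h1 : ((SQ m (d₀.natAbs % m) X).card : ℝ) ≤ NS (Cl m d₀) X := by
      exact_mod_cast low_NS hs X
    have h2 : (0 : ℝ) ≤ X := Nat.cast_nonneg X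
    nlinarith [mul_nonneg hc.le h2]
  · have h4 : Tendsto (fun X : ℕ => X / 4) atTop atTop :=
      Nat.tendsto_div_const_atTop (by norm_num)
    filter_upwards [h4.eventually h, eventually_ge_atTop 4] with X hX hX4
    have h1 : ((SQ m (d₀.natAbs % m) (X / 4)).card : ℝ) ≤ NF (Cl m d₀) X := by
      exact_mod_cast low_NF hs X
    have h2 : (X : ℝ) ≤ 8 * ((X / 4 : ℕ) : ℝ) := by
      have : X ≤ 8 * (X / 4) := by omega
      exact_mod_cast this
    nlinarith [mul_le_mul_of_nonneg_left h2 hc.le]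

/-! ### ratios -/

theorem ratio {a b : ℕ → ℕ} {η c : ℝ} (hc : 0 < c)
    (h : Tendsto (fun X : ℕ => ((a X : ℝ) - η * (b X : ℝ)) / (X : ℝ)) atTop (nhds 0))
    (hb : ∀ᶠ X : ℕ in atTop, c * X ≤ (b X : ℝ)) :
    Tendsto (fun X : ℕ => (a X : ℝ) / (b X : ℝ)) atTop (nhds η) := by
  rw [tendsto_iff_norm_sub_tendsto_zero]
  have h1 : Tendsto (fun X : ℕ => 1 / c * ‖((a X : ℝ) - η * (b X : ℝ)) / (X : ℝ)‖) atTop
      (nhds 0) := by
    have := (tendsto_norm_zero.comp h).const_mul (1 / c)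
    rw [mul_zero] at this
    exact this
  refine squeeze_zero' (Eventually.of_forall fun X => norm_nonneg _) ?_ h1
  filter_upwards [hb, eventually_gt_atTop 0] with X hX hX0
  have hX0' : (0 : ℝ) < X := by exact_mod_cast hX0
  have hb0 : (0 : ℝ) < b X := lt_of_lt_of_le (mul_pos hc hX0') hX
  have e : (a X : ℝ) / (b X : ℝ) - η = ((a X : ℝ) - η * (b X : ℝ)) / (b X : ℝ) := by
    field_simp
  rw [e, norm_div, norm_div, Real.norm_of_nonneg hb0.le, Real.norm_of_nonneg hX0'.le,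
    one_div, ← div_eq_inv_mul, div_div]
  refine div_le_div_of_nonneg_left (norm_nonneg _) (by positivity) ?_
  linarith

theorem pos_of {a b : ℕ → ℕ} {η c : ℝ} (hη : 0 < η) (hc : 0 < c)
    (h : Tendsto (fun X : ℕ => (a X : ℝ) / (b X : ℝ)) atTop (nhds η))
    (hb : ∀ᶠ X : ℕ in atTop, c * X ≤ (b X : ℝ)) :
    ∀ᶠ X : ℕ in atTop, η / 2 * c * X ≤ (a X : ℝ) := by
  filter_upwards [h.eventually (lt_mem_nhds (half_lt_self hη)), hb, eventually_gt_atTop 0]
    with X h1 h2 hX0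
  have hX0' : (0 : ℝ) < X := by exact_mod_cast hX0
  have hb0 : (0 : ℝ) < b X := lt_of_lt_of_le (mul_pos hc hX0') h2
  rw [lt_div_iff₀ hb0] at h1
  nlinarith [mul_le_mul_of_nonneg_left h2 (half_pos hη).le]

/-- **a law in a class of squarefree integers** -/
theorem law_cl {m : ℕ} (hm : 0 < m) {d₀ : ℤ} (hs : Squarefree d₀) {G : ℤ → Prop} {η : ℝ}
    (hη : 0 < η) (hG : HG (Cl m d₀) G η) :
    Tendsto (fun X : ℕ => (NS (fun d => Cl m d₀ d ∧ G d) X : ℝ) / (NS (Cl m d₀) X : ℝ)) atTop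
      (nhds η) ∧
    Tendsto (fun X : ℕ => (NF (fun d => Cl m d₀ d ∧ G d) X : ℝ) / (NF (Cl m d₀) X : ℝ)) atTop
      (nhds η) ∧
    ∃ c : ℝ, 0 < c ∧
      (∀ᶠ X : ℕ in atTop, c * X ≤ (NS (fun d => Cl m d₀ d ∧ G d) X : ℝ)) ∧
      ∀ᶠ X : ℕ in atTop, c * X ≤ (NF (fun d => Cl m d₀ d ∧ G d) X : ℝ) := by
  obtain ⟨c, hc, h1, h2⟩ := low hm hs
  have r1 := ratio hc (cls_NS hG) h1
  have r2 := ratio hc (cls_NF hG) h2
  exact ⟨r1, r2, η / 2 * c, by positivity, pos_of hη hc r1 h1, pos_of hη hc r2 h2⟩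

end Pool.Agent.N972.TP
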