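import Pool.Agent.N972.TP.Cls
import Pool.Agent.N972.JT.L17
import Pool.Agent.N877.JX.Hx
import Pool.Agent.N963.JT.Fin

/-!
# TP: the twists of the curves of conductors 15 and 17 in the classes
-/

set_option autoImplicit false
set_option linter.all false

open scoped Classical

namespace Pool.Agent.N972.TP

open Finset Filter
open Pool.Agent.N919.BS (NS NF HG Rt17)
open Pool.Agent.N916.MO (G17)
open Pool.Agent.N916.GB (eta)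
open Pool.Agent.N916.PQ (f15)
open Pool.Agent.N809.PQ (Sg15)
open Pool.Agent.Y703.CQ (c2)
open Pool.Agent.N963.JT (Sp sp_f15 sp_rt R15 R17 r15_iff r17_iff)

theorem cl_same {m : ℕ} {d₀ d : ℤ} (h0 : d₀ ≠ 0) (h : Cl m d₀ d) :
    ((0 < d ∧ 0 < d₀) ∨ (d < 0 ∧ d₀ < 0)) ∧ d % (m : ℤ) = d₀ % (m : ℤ) := by
  obtain ⟨h1, h2, h3⟩ := h
  exact ⟨by omega, h3⟩

theorem rt_cl {m : ℕ} (h17 : 17 ∣ m) {d₀ d : ℤ} (h0 : d₀ ≠ 0) (hR : Rt17 d₀) (h : Cl m d₀ d) :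
    Rt17 d :=
  (sp_rt h17 d d₀ (cl_same h0 h).1 (cl_same h0 h).2).2 hR

theorem f15_cl {m : ℕ} (h15 : 15 ∣ m) {d₀ d : ℤ} (h0 : d₀ ≠ 0) (hR : f15 d₀ = true)
    (h : Cl m d₀ d) : f15 d = true :=
  (sp_f15 h15 d d₀ (cl_same h0 h).1 (cl_same h0 h).2).2 hR

theorem hg17 {m : ℕ} (hm : 0 < m) (h17 : 17 ∣ m) {d₀ : ℤ} (h0 : d₀ ≠ 0) (hR : Rt17 d₀) :
    HG (Cl m d₀) G17 c2 :=
  hg_of (M := 136 * m) (by positivity) (Dvd.dvd.mul_right (by norm_num) m)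
    (sp_cl (Dvd.intro_left _ rfl) d₀) Pool.Agent.N916.MO.c201.1 Pool.Agent.N916.MO.c201.2
    fun s' k c t r s H K hK =>
      Pool.Agent.N972.JT.L17.lah17 (Dvd.intro _ rfl) (by positivity) H K fun a ha =>
        ⟨(hK a ha).1, rt_cl h17 h0 hR (hK a ha).2⟩

theorem hg15 {m : ℕ} (hm : 0 < m) (h15 : 15 ∣ m) {d₀ : ℤ} (h0 : d₀ ≠ 0) (hR : f15 d₀ = true) :
    HG (Cl m d₀) Sg15 eta :=
  hg_of (M := 840 * m) (by positivity) (Dvd.dvd.mul_right (by norm_num) m)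
    (sp_cl (Dvd.intro_left _ rfl) d₀) Pool.Agent.N916.PQ.eta01.1 Pool.Agent.N916.PQ.eta01.2
    fun s' k c t r s H K hK =>
      ((Pool.Agent.N877.JX.i15 (P := Cl m d₀) fun d h => f15_cl h15 h0 hR h).lah (by norm_num))
        s' k c t r s H (840 * m) (Dvd.intro _ rfl) (by positivity) K hK

theorem hgR17 {m : ℕ} (hm : 0 < m) (h17 : 17 ∣ m) {d₀ : ℤ} (h0 : d₀ ≠ 0) (hR : Rt17 d₀) :
    HG (Cl m d₀) R17 c2 :=
  hg_congr1 (hg17 hm h17 h0 hR) fun d hs _ _ hd => by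
    rw [r17_iff hs]
    exact (and_iff_right (rt_cl h17 h0 hR hd)).symm

theorem hgR15 {m : ℕ} (hm : 0 < m) (h15 : 15 ∣ m) {d₀ : ℤ} (h0 : d₀ ≠ 0) (hR : f15 d₀ = true) :
    HG (Cl m d₀) R15 eta :=
  hg_congr1 (hg15 hm h15 h0 hR) fun d hs h1 h2 _ => r15_iff d hs h1 h2

end Pool.Agent.N972.TP
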